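import Pool.Agent.MinGrowth.FreeProd

/-!
# Wreath products whose minimal growth rate is not attained

Let `A` be generated by finitely many finitely generated groups `P i` such that there is a
homomorphism `ρ` from `A` to the direct product of the `P i` extending the coordinate embeddings, and
let `B` be a finitely generated group with a homomorphism onto `ℤ`. Then the minimal growth rates of
`A ≀ B` and of `(∏ P i) ≀ B` agree, and that of `A ≀ B` is not attained unless `ρ` is injective.
In particular `A ≀ B` never attains its minimal growth rate when `A` is the free product of a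
finite family of finitely generated groups at least two of which are nontrivial.
-/

namespace Pool.Agent.Results.MP_f4e6b0_al.FarLampsNotAttained

open Pool.Agent.MinGrowth

universe u v w z

theorem result {ι : Type w} [Fintype ι] [DecidableEq ι] {B : Type v} [Group B]
    {P : ι → Type z} [∀ i, Group (P i)]
    (θ : B →* Multiplicative ℤ) (hθ : Function.Surjective θ) (hB : Group.FG B)
    (hP : ∀ i, Group.FG (P i)) :
    (∀ (A : Type u) [Group A] (j : ∀ i, P i →* A) (ρ : A →* ∀ i, P i),
      ⨆ i, (j i).range = ⊤ → (∀ i p, ρ (j i p) = Pi.mulSingle i p) →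
        minGrowthRate (Wreath A B) = minGrowthRate (Wreath (∀ i, P i) B) ∧
        (¬ Function.Injective ρ →
          Group.FG (Wreath A B) ∧ ¬ AttainsMinGrowth (Wreath A B))) ∧
    ((∃ i i' : ι, i ≠ i' ∧ Nontrivial (P i) ∧ Nontrivial (P i')) →
      Group.FG (Wreath (Monoid.CoprodI P) B) ∧
        minGrowthRate (Wreath (Monoid.CoprodI P) B) = minGrowthRate (Wreath (∀ i, P i) B) ∧
        ¬ AttainsMinGrowth (Wreath (Monoid.CoprodI P) B)) := by
  refine ⟨?_, ?_⟩
  · intro A _ j ρ hj hρ
    exact ⟨Wreath.spread_minGrowthRate_eq θ hθ hB hP j hj ρ hρ, fun h =>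
      ⟨Wreath.fg (Wreath.fg_of_ranges hP j hj) hB,
        Wreath.spread_not_attains θ hθ hB hP j hj ρ hρ h⟩⟩
  · rintro ⟨i, i', hne, h1, h2⟩
    have hj := Wreath.iSup_range_of P
    have hρ := Wreath.coprodToPi_of P
    exact ⟨Wreath.fg (Wreath.fg_of_ranges hP _ hj) hB,
      Wreath.spread_minGrowthRate_eq θ hθ hB hP _ hj (Wreath.coprodToPi P) hρ,
      Wreath.spread_not_attains θ hθ hB hP _ hj (Wreath.coprodToPi P) hρ
        (Wreath.coprodToPi_not_injective P hne)⟩

end Pool.Agent.Results.MP_f4e6b0_al.FarLampsNotAttained
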