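import Pool.Agent.MinGrowth.Iso

/-!
# Lamplighter groups over groups generated by elements of order two or three

Let `p ∈ {2, 3}` and let `A` be generated by elements `a_i` (`i ∈ ι`, `r = |ι|`) of order `p` such
that some homomorphism from `A` onto `(ℤ/p)^ι` maps `a_i` to the `i`-th coordinate vector. Then the
minimal growth rate of `A ≀ ℤ` is the unique positive root `w` of `w^(r+1) = (w + p - 1)^r`, and
`A ≀ ℤ` attains it if and only if `A` is abelian.
-/

namespace Pool.Agent.Results.MP_f4e6b0_al.LampsOfOrderTwoThree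

open Pool.Agent.MinGrowth

universe u

theorem result {p : ℕ} (hp : p = 2 ∨ p = 3) {ι : Type} [Fintype ι] [DecidableEq ι]
    {A : Type u} [Group A] (a : ι → A) (hgen : Subgroup.closure (Set.range a) = ⊤)
    (hord : ∀ i, a i ^ p = 1) (ρ : A →* (ι → Multiplicative (ZMod p)))
    (hρ : ∀ i, ρ (a i) = Pi.mulSingle i (Multiplicative.ofAdd 1)) :
    (∀ w : ℝ, 0 < w → (w ^ (Fintype.card ι + 1) = (w + (p - 1)) ^ Fintype.card ι ↔
      w = minGrowthRate (Wreath A (Multiplicative ℤ)))) ∧
    0 < minGrowthRate (Wreath A (Multiplicative ℤ)) ∧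
    (AttainsMinGrowth (Wreath A (Multiplicative ℤ)) ↔ ∀ x y : A, x * y = y * x) := by
  haveI : Fact p.Prime := ⟨by rcases hp with rfl | rfl <;> norm_num⟩
  have hp3 : p ≤ 3 := by rcases hp with rfl | rfl <;> norm_num
  have hP : (1 : ℝ) ≤ p := by exact_mod_cast (Fact.out : p.Prime).one_le
  have h1 := lamps_minGrowthRate hgen hord hρ
  have h2 := Lp.minGrowthRate_root (p := p) (ι := ι) hp3
  have h3 : 0 < minGrowthRate (Lp p ι) := by
    rw [Lp.minGrowthRate_eq hp3]
    exact growthRate_pos _
  rw [← h1] at h2 h3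
  refine ⟨?_, h3, lamps_attains_iff hp3 hgen hord hρ⟩
  intro w hw
  constructor
  · intro h
    exact root_unique hP _ hw h3 h h2
  · rintro rfl
    exact h2

end Pool.Agent.Results.MP_f4e6b0_al.LampsOfOrderTwoThree
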