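import Pool.Agent.MinSig.Final

/-!
# MP_f4e6b0_al: the groups that attain their minimal growth rate form a `Σ⁰₃`-complete set

In the space of the groups with `m` marked generators the set of the groups that attain their
minimal exponential growth rate is `Σ⁰₃` for every `m`; for `m ≥ 8` every `Σ⁰₃` subset of the
Cantor space is a continuous preimage of it, by a map all of whose values have the same minimal
growth rate, and it is not `Π⁰₃`.
-/

set_option autoImplicit false

namespace Pool.Agent.Results.MP_f4e6b0_al.SigmaThreeComplete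

open Pool.Agent.MinGrowth Pool.Agent.MinSig

theorem result :
    (∀ m, IsSigma03 (Att m)) ∧
    (∃ v : ℝ, ∀ m, 8 ≤ m → ∀ C : Set (ℕ → Bool), IsSigma03 C →
      ∃ Φ : (ℕ → Bool) → MarkedGroup m, Continuous Φ ∧ (∀ x, Φ x ∈ Att m ↔ x ∈ C) ∧
        ∀ x, minGrowthRate (Φ x).grp = v) ∧
    ∀ m, 8 ≤ m → ¬ IsPi03 (Att m) :=
  ⟨att_sigma, complete, fun _ hm => not_pi hm⟩

end Pool.Agent.Results.MP_f4e6b0_al.SigmaThreeComplete
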