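import Pool.Agent.MinGrowth.Wreath

/-!
# Wreath products `A ≀ B` with `B` mapping onto `ℤ` are growth tight

For every finite generating set `S` of `G = A ≀ B` and every homomorphism `φ` from `G` with
nontrivial kernel the growth rate of `φ(G)` with respect to `φ(S)` is strictly smaller than that of
`G` with respect to `S`. Consequently a wreath product of this kind that attains its minimal growth
rate is Hopfian, and `A ≀ B` does not attain its minimal growth rate when `A` is a finitely
generated non-Hopfian group.

The proof reads words as paths in `ℤ`; Hammersley-Welsh unfolding shows that the growth series is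
finite wherever the sum of the bridge generating functions is, bridges in a wreath product can be
concatenated freely, and a kernel element can be inserted at linearly many places of a bridge.
-/

namespace Pool.Agent.Results.MP_f4e6b0_al.WreathGrowthTight

open Pool.Agent.MinGrowth

universe u v w

theorem result {A : Type u} {B : Type v} [Group A] [Group B] [Nontrivial A]
    (θ : B →* Multiplicative ℤ) (hθ : Function.Surjective θ) :
    (∀ (H : Type w) [Group H] (φ : Wreath A B →* H), ¬ Function.Injective φ →
      ∀ (S : Finset (Wreath A B)) (T : Finset H),
        Subgroup.closure (S : Set (Wreath A B)) = ⊤ → (T : Set H) = φ '' (S : Set (Wreath A B)) →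
          growthRate T < growthRate S) ∧
    (AttainsMinGrowth (Wreath A B) →
      ∀ f : Wreath A B →* Wreath A B, Function.Surjective f → Function.Injective f) ∧
    (Group.FG A → Group.FG B →
      (∃ f : A →* A, Function.Surjective f ∧ ¬ Function.Injective f) →
        Group.FG (Wreath A B) ∧ ¬ AttainsMinGrowth (Wreath A B)) := by
  have h2 : ∀ f : Wreath A B →* Wreath A B, Function.Surjective f →
      ¬ Function.Injective f → ¬ AttainsMinGrowth (Wreath A B) := by
    intro f hf hinj
    apply not_attains_of_endomorphism f hf
    intro S _ hS
    exact Wreath.growthRate_lt θ hθ f hinj S hS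
  refine ⟨?_, ?_, ?_⟩
  · intro H _ φ hφ S T hS hT
    classical
    have h1 := Wreath.growthRate_lt θ hθ φ hφ S hS
    have h3 : T = S.image φ := by
      apply Finset.coe_injective
      rw [hT, Finset.coe_image]
    rw [h3]
    exact h1
  · intro hatt f hf
    by_contra hinj
    exact h2 f hf hinj hatt
  · rintro hA hB ⟨f, hf, hinj⟩
    exact ⟨Wreath.fg hA hB, h2 (Wreath.map f) (Wreath.map_surjective hf)
      (Wreath.map_not_injective hinj)⟩

end Pool.Agent.Results.MP_f4e6b0_al.WreathGrowthTight
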